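import Mathlib
import Pool.Agent.U896.LS.FinalLS

/-!
# Locally conformally symplectic forms with singularities on simply connected manifolds

`X` is a simply connected closed manifold of dimension `d ≥ 4` with a continuous almost complex
structure `J`, and `K` is a closed subset whose `(d-3)`-dimensional Hausdorff measure is zero. Off
`K` there are a smooth two-form `σ` and a smooth closed one-form `θ` with `dσ = θ ∧ σ`, so that `σ`
is locally conformally closed with Lee form `θ`. Both may be unbounded near `K`, without any
condition on their growth; the eccentricity of `σ` is bounded near `K`, `σ(v, Jv) ≥ c |σ| |v|²`.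
If `σ(v, Jv) ≥ 0` off `K`, and the components of the set of the points which are in `K` or near
which `σ` is not uniformly taming are small, then there is a positive function `f` such that `f σ`
is closed off `K`, and `J` is tamed by a symplectic form, which is equal to `f σ + dα` with a
smooth one-form `α` outside a given neighbourhood of `K`.
-/

set_option autoImplicit false

open Set MeasureTheory
open scoped Manifold ContDiff

namespace Pool.Agent.Results.MP_2a78db_gt.ConformalSingularities

open Pool.Agent.Y501.SYP Pool.Agent.U896.LSP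

theorem result (d : ℕ) (hd : 4 ≤ d) (X : Type) [TopologicalSpace X] [ChartedSpace (ES d) X]
    [IsManifold 𝓘(ℝ, ES d) ∞ X] [CompactSpace X] [T2Space X] [SimplyConnectedSpace X]
    (J : End (ES d) X) (hJ : IsAlmostComplex J) (K : Set X) (hK : IsClosed K)
    (hH : ∀ x₀ : X, μH[(d : ℝ) - 3] (chartAt (ES d) x₀ '' (K ∩ (chartAt (ES d) x₀).source)) = 0)
    (σ : Form (ES d) X 2) (θ : Form (ES d) X 1) (hσ : ConfClosedOff σ θ K)
    (hb : ∀ x ∈ K, BoundedEccNear σ J K x)
    (hpos : ∀ x, x ∉ K → ∀ v : TangentSpace 𝓘(ℝ, ES d) x, 0 ≤ qd σ J x v)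
    (hsmall : ∀ z ∈ K ∪ Crit σ J K, SmallAll J (connectedComponentIn (K ∪ Crit σ J K) z) z) :
    ∃ f : X → ℝ, (∀ x, 0 < f x) ∧ ClosedOff (scale f σ) K ∧
      ∀ U : Set X, IsOpen U → K ⊆ U →
        ∃ (α : Form (ES d) X 1) (η w : Form (ES d) X 2), IsSmooth α ∧ IsSmooth η ∧ IsD α η ∧
          IsTamingSymplectic w J ∧ ∀ x, x ∉ U → w x = addF (scale f σ) η x :=
  confE hd J hJ K hK hH σ θ hσ hb hpos hsmall

end Pool.Agent.Results.MP_2a78db_gt.ConformalSingularities
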