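import Mathlib
import Pool.Agent.U896.VM.FinalV

/-!
# Measurable closed two-forms which are nearly nondegenerate

`X` is a closed manifold and `σ` is a measurable two-form on `X` (it need not be bounded) which is
closed in the sense of distributions, of Morrey growth with an exponent `a < 1`, and smooth and
closed off a closed set `K` (which may be all of `X`).

The form is called nearly nondegenerate at a point if, in a chart, on every small ball `B(y, t)`
near the point it is close in the mean to a convex set of constant forms with a common lower bound
(of the form `η(v, w) ≥ c |v|` for some `w` with `|w| ≤ 1`); the set may depend on the ball, and the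
mean distance has to tend to zero with `t`. For instance, `σ` has vanishing mean oscillation and its
mean values over small balls have a common lower bound, or the values of `σ` on small balls are in
convex sets of uniformly nondegenerate forms.

If `σ` is nearly nondegenerate at every point, then `X` has a symplectic form, and it may be chosen
equal to `σ` off a given neighbourhood of `K`. No almost complex structure is used.

Proof: in a chart one replaces `σ` by the averages of its pull-backs by `x ↦ x + χ(x) y`, `|y| < ε`.
By Jensen's inequality for the distance to a convex set, the average over a ball of radius `εχ(x)`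
is close to the convex set of a ball of radius `3εχ(x)`; on balls which are large compared with
`εχ`, the mean distance is controlled by the change of variables. So near nondegeneracy is kept, and
finitely many steps give a smooth form.
-/

set_option autoImplicit false

open Set MeasureTheory
open scoped Manifold ContDiff

namespace Pool.Agent.Results.MP_2a78db_gt.NearlyNondegenerateForms

open Pool.Agent.Y501.SYP Pool.Agent.U896.SWP Pool.Agent.U896.SVP Pool.Agent.U896.VMP

theorem result (d : ℕ) (hd : 0 < d) (X : Type) [TopologicalSpace X] [ChartedSpace (ES d) X]
    [IsManifold 𝓘(ℝ, ES d) ∞ X] [CompactSpace X] [T2Space X]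
    (a : ℝ) (ha : 0 ≤ a) (ha1 : a < 1) (K : Set X) (hK : IsClosed K)
    (σ : Form (ES d) X 2) (hσK : ClosedOff σ K) (hσ : LocInt σ) (hσc : WeaklyClosed σ)
    (hM : MorreyGrowth a σ) (hσn : ∀ x, NearlyNondegenerate σ x)
    (U : Set X) (hU : IsOpen U) (hKU : K ⊆ U) :
    ∃ w : Form (ES d) X 2, IsSmooth w ∧ IsClosedForm w ∧ NondegForm w ∧
      ∀ x, x ∉ U → w x = σ x :=
  nearly hd ha ha1 K hK σ hσK hσ hσc hM hσn U hU hKU

end Pool.Agent.Results.MP_2a78db_gt.NearlyNondegenerateForms
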