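import Mathlib
import Pool.Agent.U896.NT.FinalNT

/-!
# Forms which tame an almost complex structure in the mean at small scales

`X` is a closed manifold with a continuous almost complex structure `J`, `σ₀` is a smooth closed
two-form, and `β` and `σ` are measurable and locally integrable forms of degree one and two with
`σ = σ₀ + dβ` in the sense of distributions. Assume that the integral of `|σ|` over balls of radius
`t` is `O(t ^ (d - a))` with `a < 1` (for instance `σ` is bounded) and that `σ` nearly tames `J`:
near every point, for some `c > 0`, the mean over small balls `B(y, t)` of the distance of `σ` from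
the set of the constant forms `η` with `η(v, J(y) v) ≥ c |v|²` tends to zero, uniformly in `y`, as
`t` tends to zero. For instance, `σ` is of vanishing mean oscillation, and its means over small balls
tame `J` uniformly. There is no pointwise assumption: `σ` may be negative on `J`-complex lines on
sets of positive measure near every point; `J` need not be Hölder continuous, and the eccentricity
of `σ` is not bounded.

Then the class of `σ₀` contains a symplectic form `σ₀ + dα` which tames `J`, and this form is
homotopic, by a linear path of nondegenerate forms, to every form which tames `J`.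

Proof: let `τ₀` be a smooth form taming `J`. The forms `τ` which are at least `τ₀` on `J`-complex
lines, and `σ`, are close in the mean to the same convex sets, so that the regularization `w` of `σ`
satisfies: the segments from `w` to all these `τ` consist of nondegenerate forms, with a uniform
bound. If `w(v, Jv) ≤ 0` for some `v ≠ 0`, then there is a form `κ` which is nonnegative on complex
lines, with `κ(v, ·) = -w(v, ·)`, and the segments from `w` to `τ₀ + λκ` are not uniformly
nondegenerate. So `w` tames `J`.
-/

set_option autoImplicit false

open Set MeasureTheory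
open scoped Manifold ContDiff

namespace Pool.Agent.Results.MP_2a78db_gt.NearlyTamingForms

open Pool.Agent.Y501.SYP Pool.Agent.U896.SWP Pool.Agent.U896.SVP Pool.Agent.U896.SCP
  Pool.Agent.U896.NTP

theorem result (d : ℕ) (hd : 0 < d) (X : Type) [TopologicalSpace X] [ChartedSpace (ES d) X]
    [IsManifold 𝓘(ℝ, ES d) ∞ X] [CompactSpace X] [T2Space X]
    (a : ℝ) (ha : 0 ≤ a) (ha1 : a < 1) (J : End (ES d) X) (hJ : IsAlmostComplex J)
    (σ₀ : Form (ES d) X 2) (hσ₀ : IsSmooth σ₀) (hσ₀c : IsClosedForm σ₀)
    (β : Form (ES d) X 1) (σ : Form (ES d) X 2) (hβ : LocInt1 β) (hσ : LocInt σ)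
    (hβσ : WeaklyPlusD σ σ₀ β) (hM : MorreyGrowth a σ) (hn : ∀ x, NearlyTaming σ J x) :
    ∃ (α : Form (ES d) X 1) (ρ : Form (ES d) X 2), IsSmooth α ∧ IsSmooth ρ ∧ IsD α ρ ∧
      IsTamingSymplectic (addF σ₀ ρ) J ∧ ∀ τ : Form (ES d) X 2, (∀ x, TamesAt τ J x) →
        ∀ t : ℝ, 0 ≤ t → t ≤ 1 → NondegForm (segment τ (addF σ₀ ρ) t) :=
  nearlyTaming hd ha ha1 J hJ σ₀ hσ₀ hσ₀c β σ hβ hσ hβσ hM hn

end Pool.Agent.Results.MP_2a78db_gt.NearlyTamingForms
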