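import Mathlib
import Pool.Agent.U896.PG.FinalG

/-!
# Nonnegative forms with a primitive of small growth

`X` is a closed manifold with an almost complex structure `J` which is Hölder continuous with
exponent `γ ≤ 1`, `σ₀` is a smooth closed two-form, and `β` and `σ` are measurable and locally
integrable forms of degree one and two with `σ = σ₀ + dβ` in the sense of distributions. Off a null
set `N` one has `σ(v, Jv) ≥ 0`, and near every point the Cauchy-Schwarz bound
`σ(v, w)² ≤ B σ(v, Jv) σ(w, Jw)` holds off `N` (with `B = 1` if `σ` is `J`-invariant).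

Assume that the primitive `β` has Morrey growth of exponent `b` with `1 + b < 2 γ`. For instance,
`β` is locally bounded and `γ > 1/2`, or `J` is Lipschitz continuous and `|β| ^ p` is locally
integrable for some `p > d`. There is no assumption on the growth of `σ`. If the components of the
set of points near which `σ` is not uniformly taming (off `N`) are small, then the class of `σ₀`
contains a symplectic form taming `J`.

Proof: the values of `σ` on a frame `e_i, J(q) e_i` bound `|σ|` near `q`, up to a part which is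
absorbed since `J` is continuous, and their integral over a ball of radius `t` around `q` is bounded
by `t ^ d` and the integral of `|β| / t` over a larger ball. So `σ` has Morrey growth of exponent
`1 + b`, and the averages of `σ` at small scales tame `J`.
-/

set_option autoImplicit false

open Set MeasureTheory
open scoped Manifold ContDiff

namespace Pool.Agent.Results.MP_2a78db_gt.PrimitiveGrowth

open Pool.Agent.Y501.SYP Pool.Agent.U896.SEP Pool.Agent.U896.SWP Pool.Agent.U896.SVP
  Pool.Agent.U896.SCP Pool.Agent.U896.SQP Pool.Agent.U896.PGP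

theorem result (d : ℕ) (hd : 2 ≤ d) (X : Type) [TopologicalSpace X] [ChartedSpace (ES d) X]
    [IsManifold 𝓘(ℝ, ES d) ∞ X] [CompactSpace X] [T2Space X]
    (b γ : ℝ) (hb : 0 ≤ b) (hbγ : 1 + b < 2 * γ) (hγ : γ ≤ 1)
    (J : End (ES d) X) (hJ : IsAlmostComplex J) (hHol : ∀ x, HolderNear γ J x) (N : Set X)
    (hN : NullSet (d := d) N) (σ₀ : Form (ES d) X 2) (hσ₀ : IsSmooth σ₀) (hσ₀c : IsClosedForm σ₀)
    (β : Form (ES d) X 1) (σ : Form (ES d) X 2) (hβ : LocInt1 β) (hσ : LocInt σ)
    (hβσ : WeaklyPlusD σ σ₀ β) (hM : MorreyGrowth1 b β) (hCS : ∀ x, CauchySchwarzNear σ J N x)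
    (hpos : ∀ x, x ∉ N → ∀ v : TangentSpace 𝓘(ℝ, ES d) x, 0 ≤ qd σ J x v)
    (hsmall : ∀ z ∈ Crit σ J N, SmallAll J (connectedComponentIn (Crit σ J N) z) z) :
    ∃ (α : Form (ES d) X 1) (ρ : Form (ES d) X 2), IsSmooth α ∧ IsSmooth ρ ∧ IsD α ρ ∧
      IsTamingSymplectic (addF σ₀ ρ) J := by
  obtain ⟨α, ρ, h1, h2, h3, h4, -⟩ :=
    primitives hd hb hbγ hγ J hJ hHol N hN σ₀ hσ₀ hσ₀c β σ hβ hσ hβσ hM hCS hpos hsmall
  exact ⟨α, ρ, h1, h2, h3, h4⟩

end Pool.Agent.Results.MP_2a78db_gt.PrimitiveGrowth
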